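import Pool.Agent.H57.Queer

/-!
# Derivatives at the preimages of a point near the critical value
-/

set_option autoImplicit false
open Set Filter Topology Metric

namespace Pool.Agent.H57.Queer

open N62a1eb23 Pool.Agent.H57.Eng

variable {n : ℕ} {c : ℂ}

lemma hasDerivAt_f (z : ℂ) : HasDerivAt (f n c) (n * z ^ (n - 1)) z := by
  unfold f
  exact (hasDerivAt_pow n z).add_const c

/-- The derivative after two more steps. -/
lemma deriv_two (hn : 2 ≤ n) {m : ℕ} {y : ℂ} {R : ℝ} (hR : 0 ≤ R) (h1 : ‖(f n c)^[m] y‖ ≤ R)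
    (h2 : ‖(f n c)^[m + 1] y‖ ≤ R) :
    ‖deriv (f n c)^[m + 2] y‖ ≤ (n * R ^ (n - 1)) ^ 2 * ‖deriv (f n c)^[m] y‖ := by
  have e1 : ∀ j, HasDerivAt (f n c)^[j + 1]
      (n * ((f n c)^[j] y) ^ (n - 1) * deriv (f n c)^[j] y) y := by
    intro j
    rw [Function.iterate_succ']
    exact (hasDerivAt_f _).comp y (diff_iter j y).hasDerivAt
  rw [(e1 (m + 1)).deriv, (e1 m).deriv, norm_mul, norm_mul, norm_mul, norm_mul, norm_pow, norm_pow,
    Complex.norm_natCast, sq, ← mul_assoc]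
  gcongr

/-- Points whose image after two steps is not large are not large. -/
lemma norm_lt_of_iter (hn : 2 ≤ n) (hc : ‖c‖ ≤ 2) {u : ℂ} {i : ℕ} {B : ℝ} (hB : 0 ≤ B)
    (h : ‖(f n c)^[i] u‖ ≤ 2 + B) : ‖u‖ ≤ 2 + B := by
  by_contra hcon
  push Not at hcon
  have h1 := norm_iter_ge hn hc (s := ‖u‖ - 2) (by linarith) (by linarith) i
  have h2 : (1 : ℝ) ≤ 4 ^ i := one_le_pow₀ (by norm_num)
  nlinarith

/-- Points `y` with `f^k y = b`, arbitrarily close to the critical value, which are isolated from the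
points with `f^j y = b`, `j < k`. -/
theorem isolated (hn : 2 ≤ n) (A : ℝ) : ∃ C : ℝ, 0 < C ∧ ∀ c ∈ multibrotSet n,
    c ∉ closure (hyp n) → c ∈ closure (esc n c) → ∀ b : ℂ, b ≠ c → Safe n c A b →
    ∀ ρ : ℝ, 0 < ρ → ∃ᶠ k : ℕ in atTop, ∃ y : ℂ, (f n c)^[k] y = b ∧ ‖y - c‖ < ρ ∧
      ∀ w ∈ ball y (L C k), (f n c)^[k - 1] w ≠ b := by
  obtain ⟨C, hC, h⟩ := low hn A
  refine ⟨C + 1, by linarith, ?_⟩
  intro c hc hcl hesc b hb hs ρ hρ
  obtain ⟨J, hJ⟩ := eventually_atTop.mp (h c hc hcl b hs)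
  set S : ℕ → Set ℂ := fun j => {y | J ≤ j ∧ (f n c)^[j] y = b} with hS
  have hcl' : ∀ j, IsClosed (S j) := by
    intro j
    rcases lt_or_ge j J with h1 | h1
    · have : S j = ∅ := by
        ext y
        simp only [hS, Set.mem_ofPred_eq, mem_empty_iff_false, iff_false, not_and]
        intro h2
        omega
      rw [this]
      exact isClosed_empty
    · have : S j = (f n c)^[j] ⁻¹' {b} := by
        ext y
        simp only [hS, Set.mem_ofPred_eq, mem_preimage, mem_singleton_iff, and_iff_right_iff_imp]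
        intro _
        exact h1
      rw [this]
      exact isClosed_singleton.preimage (diff_iter j).continuous
  have hlow : ∀ j, J ≤ j → ∀ y ∈ S j, L C j ≤ ‖y - c‖ := fun j hj y hy => hJ j hj y hy.2
  have hcS : ∀ j, c ∉ S j := by
    intro j hj
    have h1 := hlow j hj.1 c hj
    rw [sub_self, norm_zero] at h1
    exact absurd h1 (not_le.mpr (L_pos _ _))
  have hacc : ∀ δ : ℝ, 0 < δ → ∃ j, ∃ y ∈ S j, ‖y - c‖ < δ := by
    intro δ hδ
    obtain ⟨y, hy, j, hj, hjy⟩ := accum hn (norm_c_le hn hc) hesc (c_not_esc hn hc) hb J hδ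
    exact ⟨j, y, ⟨hj, hjy⟩, by rwa [mem_ball_iff_norm] at hy⟩
  have key := engine hC hcl' hcS (eventually_atTop.mpr ⟨J, hlow⟩) hacc hρ
  refine (key.and_eventually (eventually_gt_atTop J)).mono ?_
  rintro k ⟨⟨y, hy, hy2, hy3⟩, hk⟩
  refine ⟨y, hy.2, hy2, fun w hw hcon => ?_⟩
  exact hy3 w hw (k - 1) (by omega) ⟨by omega, hcon⟩

/-- The bound of the derivative at an isolated point. -/
theorem deriv_bound (hn : 2 ≤ n) (hc : ‖c‖ ≤ 2) {b : ℂ} (hb : b ≠ c) : ∃ K : ℝ, 0 < K ∧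
    ∀ (k : ℕ) (y : ℂ) (r : ℝ), 2 ≤ k → 0 < r → (f n c)^[k] y = b →
      (∀ w ∈ ball y r, (f n c)^[k - 1] w ≠ b) → ‖deriv (f n c)^[k] y‖ * r ≤ K := by
  obtain ⟨a1, a2, ha, h1, h2⟩ := two_roots hn (sub_ne_zero.mpr hb)
  set R : ℝ := 2 + ‖b‖ with hR
  have hR0 : 0 ≤ R := by positivity
  set K0 : ℝ := ‖a2 - a1‖ * (4 * (TH363.QI.C₁ * ((R + ‖a1‖) / ‖a2 - a1‖) + 1 +
      ((R + ‖a1‖) / ‖a2 - a1‖) ^ 2)) with hK0
  refine ⟨(n * R ^ (n - 1)) ^ 2 * |K0| + 1, by positivity, ?_⟩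
  intro k y r hk hr hky hiso
  obtain ⟨m, rfl⟩ : ∃ m, k = m + 2 := ⟨k - 2, by omega⟩
  have e1 : m + 2 - 1 = m + 1 := by omega
  rw [e1] at hiso
  have hne : ∀ a : ℂ, a ^ n = b - c → ∀ w ∈ ball y r, (f n c)^[m] w ≠ a := by
    intro a ha w hw hcon
    apply hiso w hw
    rw [Function.iterate_succ_apply', hcon]
    unfold f
    rw [ha]
    ring
  have hy2 : ‖(f n c)^[2] ((f n c)^[m] y)‖ ≤ 2 + ‖b‖ := by
    rw [← Function.iterate_add_apply, add_comm, hky]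
    linarith
  have hy1 : ‖(f n c)^[1] ((f n c)^[m + 1] y)‖ ≤ 2 + ‖b‖ := by
    rw [← Function.iterate_add_apply, add_comm]
    have e2 : m + 1 + 1 = m + 2 := rfl
    rw [e2, hky]
    linarith
  have hR1 := norm_lt_of_iter hn hc (norm_nonneg b) hy2
  have hR2 := norm_lt_of_iter hn hc (norm_nonneg b) hy1
  have h3 := landau2 hr ha (diff_iter m).differentiableOn (hne a1 h1) (hne a2 h2) hR1
  rw [← hK0] at h3
  have h4 := deriv_two hn hR0 hR1 hR2
  have h5 : 0 ≤ (n * R ^ (n - 1)) ^ 2 := by positivity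
  calc ‖deriv (f n c)^[m + 2] y‖ * r ≤ (n * R ^ (n - 1)) ^ 2 * ‖deriv (f n c)^[m] y‖ * r := by
        gcongr
    _ = (n * R ^ (n - 1)) ^ 2 * (‖deriv (f n c)^[m] y‖ * r) := by ring
    _ ≤ (n * R ^ (n - 1)) ^ 2 * |K0| := by
        gcongr
        exact h3.trans (le_abs_self _)
    _ ≤ _ := by linarith

/-- Quasi-polynomial growth of the derivatives at the preimages of a safe point near the critical
value implies density of hyperbolicity. -/
theorem back (hn : 2 ≤ n) (A : ℝ) : ∃ C : ℝ, 0 < C ∧ ∀ c ∈ multibrotSet n,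
    c ∈ closure (esc n c) → ∀ b : ℂ, b ≠ c → Safe n c A b → ∀ ρ : ℝ, 0 < ρ →
    (∀ᶠ k : ℕ in atTop, ∀ y : ℂ, ‖y - c‖ < ρ → (f n c)^[k] y = b →
      Real.exp (C * Real.log k ^ 2) ≤ ‖deriv (f n c)^[k] y‖) → c ∈ closure (hyp n) := by
  obtain ⟨C, hC, h⟩ := isolated hn A
  refine ⟨C + 1, by linarith, ?_⟩
  intro c hc hesc b hb hs ρ hρ hgrow
  by_contra hcl
  obtain ⟨K, hK, h2⟩ := deriv_bound hn (norm_c_le hn hc) hb
  have h3 := h c hc hcl hesc b hb hs ρ hρ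
  obtain ⟨k, ⟨y, hy1, hy2, hy3⟩, h4, h5, h6⟩ :=
    (h3.and_eventually (hgrow.and ((big K).and (eventually_ge_atTop 2)))).exists
  have h7 := h2 k y (L C k) h6 (L_pos _ _) hy1 hy3
  have h8 := h4 y hy2 hy1
  have h9 : Real.exp ((C + 1) * Real.log k ^ 2) * L C k = Real.exp (Real.log k ^ 2) := by
    unfold L
    rw [← Real.exp_add]
    congr 1
    ring
  have h10 : Real.exp (Real.log k ^ 2) ≤ K := by
    rw [← h9]
    exact (mul_le_mul_of_nonneg_right h8 (L_pos _ _).le).trans h7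
  have hk2 : (2 : ℝ) ≤ k := by exact_mod_cast h6
  have h11 : K * 1 ≤ K * (k * (k + 1)) := by
    gcongr
    nlinarith
  linarith

end Pool.Agent.H57.Queer
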