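import Pool.Prelude.Def_F_c31e40fa

/-!
# The polynomials `z ^ n + c`
-/

set_option autoImplicit false
open Set Filter Topology Metric

namespace Pool.Agent.H57.Queer

open N62a1eb23

/-- The polynomial `z ^ n + c`. -/
def f (n : ℕ) (c : ℂ) : ℂ → ℂ := fun z => z ^ n + c

/-- The parameters `c` for which `z ^ n + c` has an attracting cycle. -/
def hyp (n : ℕ) : Set ℂ := {c | ∃ m z, IsAttractingCycle (f n c) m z}

/-- The points with orbits tending to infinity. -/
def esc (n : ℕ) (c : ℂ) : Set ℂ := {z | Tendsto (fun k : ℕ => ‖(f n c)^[k] z‖) atTop atTop}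

end Pool.Agent.H57.Queer
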