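import Mathlib
import Pool.Prelude.Def_F_c31e40fa
import Pool.Graph.R_pool_sql_team_seeded_707910d6.Results.MP_af9036_an.QuasiPolynomialGrowth
import Pool.Graph.R_pool_sql_team_seeded_707910d6.Results.MP_af9036_an.ClosingLemma
import Pool.Graph.R_seed8.TH363.QI.Landau
import Pool.Graph.R_seed8.Helper113.Gorin.Schottky

/-!
# Tools: sequences of scales, Schottky and Landau for functions omitting two values
-/

set_option autoImplicit false
open Set Filter Topology Metric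

namespace Pool.Agent.H57.Eng

/-- The rate `exp (-(C log² k))`. -/
noncomputable def L (C : ℝ) (k : ℕ) : ℝ := Real.exp (-(C * Real.log k ^ 2))

lemma L_pos (C : ℝ) (k : ℕ) : 0 < L C k := Real.exp_pos _

lemma L_anti {C : ℝ} (hC : 0 ≤ C) {j k : ℕ} (hj : 1 ≤ j) (h : j ≤ k) : L C k ≤ L C j := by
  unfold L
  apply Real.exp_le_exp.mpr
  have hj' : (1 : ℝ) ≤ j := by exact_mod_cast hj
  have h1 : 0 ≤ Real.log j := Real.log_nonneg hj'
  have h2 : Real.log j ≤ Real.log k := Real.log_le_log (by linarith) (by exact_mod_cast h)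
  have : Real.log j ^ 2 ≤ Real.log k ^ 2 := by gcongr
  nlinarith

/-- Selection of scales. -/
theorem select {d : ℕ → ℝ} (hlim : Tendsto d atTop (𝓝 0)) {C : ℝ} (hC : 0 ≤ C)
    (hlow : ∀ᶠ k in atTop, L C k ≤ d k) :
    ∃ᶠ k : ℕ in atTop, L C k / (k * (k + 1)) < d k - d (k + 1) := by
  by_contra hcon
  rw [not_frequently] at hcon
  obtain ⟨k0, hk0⟩ := eventually_atTop.mp (hcon.and (hlow.and (eventually_ge_atTop 2)))
  set m0 := max k0 2 with hm0
  have h2 : 2 ≤ m0 := le_max_right _ _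
  have hk : ∀ k ≥ m0, d k - d (k + 1) ≤ L C k / (k * (k + 1)) ∧ L C k ≤ d k := by
    intro k hk
    obtain ⟨h1, h3, -⟩ := hk0 k ((le_max_left _ _).trans hk)
    exact ⟨not_lt.mp h1, h3⟩
  have hm0r : (2 : ℝ) ≤ m0 := by exact_mod_cast h2
  have key : ∀ m ≥ m0, d m0 ≤ d m + L C m0 * (1 / m0 - 1 / m) := by
    intro m hm
    induction m, hm using Nat.le_induction with
    | base => simp
    | succ m hm ih =>
      obtain ⟨h1, -⟩ := hk m hm
      have hm1 : (2 : ℝ) ≤ m := hm0r.trans (by exact_mod_cast hm)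
      have h3 : L C m ≤ L C m0 := L_anti hC (by omega) hm
      have h4 : L C m / (m * (m + 1)) ≤ L C m0 * (1 / m - 1 / ((m + 1 : ℕ) : ℝ)) := by
        have h5 : (1 / (m : ℝ) - 1 / ((m + 1 : ℕ) : ℝ)) = 1 / (m * (m + 1)) := by
          push_cast
          field_simp
          ring
        rw [h5, mul_one_div]
        gcongr
      have h6 : L C m0 * (1 / m0 - 1 / ((m + 1 : ℕ) : ℝ)) = L C m0 * (1 / m0 - 1 / m) +
          L C m0 * (1 / m - 1 / ((m + 1 : ℕ) : ℝ)) := by ring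
      rw [h6]
      linarith
  have hlim2 : Tendsto (fun m : ℕ => d m + L C m0 * (1 / m0 - 1 / (m : ℝ))) atTop
      (𝓝 (0 + L C m0 * (1 / m0 - 0))) := by
    apply hlim.add
    apply Tendsto.const_mul
    apply Tendsto.const_sub
    exact tendsto_one_div_atTop_nhds_zero_nat
  have h7 : d m0 ≤ 0 + L C m0 * (1 / m0 - 0) := by
    apply ge_of_tendsto hlim2
    filter_upwards [eventually_ge_atTop m0] with m hm using key m hm
  have h8 := (hk m0 le_rfl).2
  have h9 : L C m0 * (1 / m0) < L C m0 := by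
    have : (1 : ℝ) / m0 ≤ 1 / 2 := by gcongr
    nlinarith [L_pos C m0]
  rw [zero_add, sub_zero] at h7
  linarith

lemma L_mono {C C' : ℝ} (h : C ≤ C') (k : ℕ) : L C' k ≤ L C k := by
  unfold L
  apply Real.exp_le_exp.mpr
  have : 0 ≤ Real.log k ^ 2 := sq_nonneg _
  nlinarith

/-- `exp (log² k)` grows faster than every power. -/
lemma big (K : ℝ) : ∀ᶠ k : ℕ in atTop, K * (k * (k + 1)) < Real.exp (Real.log k ^ 2) := by
  have h1 : ∀ᶠ k : ℕ in atTop, (4 : ℝ) ≤ Real.log k :=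
    (Real.tendsto_log_atTop.comp tendsto_natCast_atTop_atTop).eventually_ge_atTop 4
  have h2 : ∀ᶠ k : ℕ in atTop, |K| + 2 ≤ (k : ℝ) :=
    tendsto_natCast_atTop_atTop.eventually_ge_atTop _
  filter_upwards [h1, h2] with k hk1 hk2
  have hK : 0 ≤ |K| := abs_nonneg K
  have hk0 : (0 : ℝ) < k := by linarith
  have h3 : (k : ℝ) ^ 4 ≤ Real.exp (Real.log k ^ 2) := by
    have h4 : (k : ℝ) ^ 4 = Real.exp (4 * Real.log k) := by
      rw [mul_comm, ← Real.rpow_def_of_pos hk0]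
      norm_cast
    rw [h4]
    apply Real.exp_le_exp.mpr
    nlinarith
  refine lt_of_lt_of_le ?_ h3
  have h5 : K * (k * (k + 1)) ≤ |K| * (k * (k + 1)) := by
    have := le_abs_self K
    gcongr
  have h6 : |K| < k := by linarith
  have h7 : |K| * (k * (k + 1)) ≤ k * (k * (k + 1)) := by gcongr
  have h8 : (k : ℝ) * (k * (k + 1)) < (k : ℝ) ^ 4 := by
    have h9 : (k : ℝ) + 1 < k ^ 2 := by nlinarith
    have h10 : (k : ℝ) * (k * (k + 1)) = k ^ 2 * (k + 1) := by ring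
    rw [h10]
    have h11 : (k : ℝ) ^ 4 = k ^ 2 * k ^ 2 := by ring
    rw [h11]
    gcongr
  linarith

lemma L_succ (C : ℝ) (k : ℕ) : L (C + 1) k * Real.exp (Real.log k ^ 2) = L C k := by
  unfold L
  rw [← Real.exp_add]
  congr 1
  ring

lemma L_lt (C : ℝ) : ∀ᶠ k : ℕ in atTop, L (C + 1) k ≤ L C k / (k * (k + 1)) := by
  filter_upwards [big 1, eventually_ge_atTop 1] with k hk hk1
  have hk1' : (1 : ℝ) ≤ k := by exact_mod_cast hk1
  rw [le_div_iff₀ (by positivity), ← L_succ C k]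
  have := L_pos (C + 1) k
  nlinarith

lemma L_tendsto {C : ℝ} (hC : 0 < C) : Tendsto (fun k : ℕ => L C k) atTop (𝓝 0) := by
  unfold L
  apply Real.tendsto_exp_atBot.comp
  apply tendsto_neg_atTop_atBot.comp
  apply Tendsto.const_mul_atTop hC
  exact (tendsto_pow_atTop (by norm_num)).comp
    (Real.tendsto_log_atTop.comp tendsto_natCast_atTop_atTop)

/-- The selection of an isolated point. -/
theorem engine {S : ℕ → Set ℂ} {c : ℂ} {C : ℝ} (hC : 0 < C) (hcl : ∀ j, IsClosed (S j))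
    (hc : ∀ j, c ∉ S j) (hlow : ∀ᶠ j : ℕ in atTop, ∀ y ∈ S j, L C j ≤ ‖y - c‖)
    (hacc : ∀ δ : ℝ, 0 < δ → ∃ j, ∃ y ∈ S j, ‖y - c‖ < δ) {ρ : ℝ} (hρ : 0 < ρ) :
    ∃ᶠ k : ℕ in atTop, ∃ y ∈ S k, ‖y - c‖ < ρ ∧ ∀ w ∈ ball y (L (C + 1) k), ∀ j < k, w ∉ S j := by
  set E : ℕ → Set ℂ := fun k => ⋃ j ∈ Finset.range k, S j with hE
  have hmem : ∀ k w, w ∈ E k ↔ ∃ j < k, w ∈ S j := by
    intro k w
    simp [hE]
  have hEcl : ∀ k, IsClosed (E k) := fun k => isClosed_biUnion_finset fun j _ => hcl j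
  have hEc : ∀ k, c ∉ E k := by
    intro k h
    obtain ⟨j, -, h2⟩ := (hmem k c).mp h
    exact hc j h2
  set d : ℕ → ℝ := fun k => infDist c (E k) with hd
  have hne : ∀ᶠ k in atTop, (E k).Nonempty := by
    obtain ⟨j, y, hy, -⟩ := hacc 1 one_pos
    filter_upwards [eventually_gt_atTop j] with k hk
    exact ⟨y, (hmem k y).mpr ⟨j, hk, hy⟩⟩
  have hlim : Tendsto d atTop (𝓝 0) := by
    rw [Metric.tendsto_atTop]
    intro δ hδ
    obtain ⟨j, y, hy, hy2⟩ := hacc δ hδ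
    refine ⟨j + 1, fun k hk => ?_⟩
    rw [Real.dist_0_eq_abs, abs_of_nonneg infDist_nonneg]
    refine lt_of_le_of_lt (infDist_le_dist_of_mem ((hmem k y).mpr ⟨j, by omega, hy⟩)) ?_
    rwa [dist_comm, dist_eq_norm]
  have hlow2 : ∀ᶠ k in atTop, L C k ≤ d k := by
    obtain ⟨J, hJ⟩ := eventually_atTop.mp hlow
    have h1 : ∀ᶠ k in atTop, (E J).Nonempty → L C k ≤ infDist c (E J) := by
      by_cases hEJ : (E J).Nonempty
      · have h2 : 0 < infDist c (E J) := by
          rw [← (hEcl J).notMem_iff_infDist_pos hEJ]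
          exact hEc J
        filter_upwards [(L_tendsto hC).eventually_le_const h2] with k hk _ using hk
      · exact Eventually.of_forall fun k h => absurd h hEJ
    filter_upwards [h1, hne, eventually_ge_atTop 1] with k hk1 hk2 hk3
    rw [hd]
    apply (le_infDist hk2).mpr
    intro y hy
    obtain ⟨j, hj, hjy⟩ := (hmem k y).mp hy
    rw [dist_comm, dist_eq_norm]
    rcases lt_or_ge j J with hjJ | hjJ
    · have hyJ : y ∈ E J := (hmem J y).mpr ⟨j, hjJ, hjy⟩
      have h3 := hk1 ⟨y, hyJ⟩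
      have h4 := infDist_le_dist_of_mem (x := c) hyJ
      rw [dist_comm, dist_eq_norm] at h4
      linarith
    · rcases Nat.eq_zero_or_pos j with h0 | h0
      · have h3 := hJ j hjJ y hjy
        rw [h0] at h3
        have h4 : L C k ≤ L C 0 := by
          unfold L
          apply Real.exp_le_exp.mpr
          simp only [CharP.cast_eq_zero, Real.log_zero]
          have : 0 ≤ Real.log k ^ 2 := sq_nonneg _
          nlinarith
        linarith
      · exact (L_anti hC.le h0 hj.le).trans (hJ j hjJ y hjy)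
  have hsel := select hlim hC.le hlow2
  refine (hsel.and_eventually ((L_lt C).and (hne.and (hlim.eventually_lt_const hρ)))).mono ?_
  rintro k ⟨h1, h2, h3, h4⟩
  have hne' : (E (k + 1)).Nonempty := by
    obtain ⟨y, hy⟩ := h3
    obtain ⟨j, hj, hjy⟩ := (hmem k y).mp hy
    exact ⟨y, (hmem (k + 1) y).mpr ⟨j, by omega, hjy⟩⟩
  have h5 : infDist c (E (k + 1)) < d k - L (C + 1) k := by
    have : d (k + 1) = infDist c (E (k + 1)) := rfl
    linarith
  obtain ⟨y, hy, hy2⟩ := (infDist_lt_iff hne').mp h5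
  have hfar : ∀ w, dist c w < d k → ∀ j < k, w ∉ S j := by
    intro w hw j hj hwj
    have := infDist_le_dist_of_mem (x := c) ((hmem k w).mpr ⟨j, hj, hwj⟩)
    have hdk : d k = infDist c (E k) := rfl
    linarith
  have hL := L_pos (C + 1) k
  obtain ⟨j, hj, hjy⟩ := (hmem (k + 1) y).mp hy
  have hjk : j = k := by
    by_contra hne
    exact hfar y (by linarith) j (by omega) hjy
  subst hjk
  refine ⟨y, hjy, ?_, ?_⟩
  · rw [← dist_eq_norm, dist_comm]
    linarith
  · intro w hw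
    apply hfar
    rw [mem_ball] at hw
    have := dist_triangle c y w
    rw [dist_comm y w] at this
    linarith

/-- Landau's inequality for a function omitting two values. -/
theorem landau2 {g : ℂ → ℂ} {y a b : ℂ} {r R : ℝ} (hr : 0 < r) (hab : a ≠ b)
    (hd : DifferentiableOn ℂ g (ball y r)) (ha : ∀ w ∈ ball y r, g w ≠ a)
    (hb : ∀ w ∈ ball y r, g w ≠ b) (hR : ‖g y‖ ≤ R) :
    ‖deriv g y‖ * r ≤ ‖b - a‖ * (4 * (TH363.QI.C₁ * ((R + ‖a‖) / ‖b - a‖) + 1 +
      ((R + ‖a‖) / ‖b - a‖) ^ 2)) := by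
  have hba : 0 < ‖b - a‖ := norm_pos_iff.mpr (sub_ne_zero.mpr hab.symm)
  have hba' : b - a ≠ 0 := norm_pos_iff.mp hba
  set h : ℂ → ℂ := fun w => (g w - a) / (b - a) with hh
  have hy : y ∈ ball y r := mem_ball_self hr
  have hdy : DifferentiableAt ℂ g y := (hd y hy).differentiableAt (isOpen_ball.mem_nhds hy)
  have h1 : HasDerivAt h (deriv g y / (b - a)) y :=
    (hdy.hasDerivAt.sub_const a).div_const (b - a)
  have h0 : ∀ t ∈ ball y r, h t ≠ 0 := by
    intro t ht h2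
    have h2' : (g t - a) / (b - a) = 0 := h2
    rcases div_eq_zero_iff.mp h2' with h3 | h3
    · exact ha t ht (sub_eq_zero.mp h3)
    · exact hba' h3
  have hl : ‖deriv g y / (b - a) / h y‖ * r ≤ 4 * (TH363.QI.C₁ + |Real.log ‖h y‖|) :=
    TH363.QI.landau hr ((hd.sub_const a).div_const (b - a)) h0 (by
    intro t ht h2
    rw [div_eq_one_iff_eq hba'] at h2
    exact hb t ht (sub_left_injective h2)) h1
  have hpos : 0 < ‖h y‖ := norm_pos_iff.mpr (h0 y hy)
  have hB : ‖h y‖ ≤ (R + ‖a‖) / ‖b - a‖ := by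
    rw [hh]
    simp only
    rw [norm_div]
    gcongr
    exact (norm_sub_le _ _).trans (by linarith)
  have hC := TH363.QI.C₁_nonneg
  have hlog : ‖h y‖ * |Real.log ‖h y‖| ≤ 1 + ‖h y‖ ^ 2 := by
    rcases le_or_gt ‖h y‖ 1 with hs | hs
    · have h3 : |Real.log ‖h y‖| = Real.log (‖h y‖)⁻¹ := by
        rw [Real.log_inv, abs_of_nonpos (Real.log_nonpos hpos.le hs)]
      have h4 : Real.log (‖h y‖)⁻¹ ≤ (‖h y‖)⁻¹ := (Real.log_le_self (by positivity))
      rw [h3]
      have h5 : ‖h y‖ * Real.log (‖h y‖)⁻¹ ≤ ‖h y‖ * (‖h y‖)⁻¹ := by gcongr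
      rw [mul_inv_cancel₀ hpos.ne'] at h5
      nlinarith [sq_nonneg ‖h y‖]
    · rw [abs_of_nonneg (Real.log_nonneg hs.le)]
      have h4 : Real.log ‖h y‖ ≤ ‖h y‖ := Real.log_le_self hpos.le
      have h5 : ‖h y‖ * Real.log ‖h y‖ ≤ ‖h y‖ * ‖h y‖ := by gcongr
      nlinarith
  have h6 : ‖deriv g y‖ * r = ‖b - a‖ * (‖h y‖ * (‖deriv g y / (b - a) / h y‖ * r)) := by
    have e : ‖deriv g y / (b - a) / h y‖ = ‖deriv g y‖ / (‖b - a‖ * ‖h y‖) := by
      rw [norm_div, norm_div, div_div]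
    rw [e]
    field_simp
  rw [h6]
  have h7 : ‖h y‖ * (‖deriv g y / (b - a) / h y‖ * r) ≤
      ‖h y‖ * (4 * (TH363.QI.C₁ + |Real.log ‖h y‖|)) := by gcongr
  have h8 : ‖h y‖ * (4 * (TH363.QI.C₁ + |Real.log ‖h y‖|)) =
      4 * (TH363.QI.C₁ * ‖h y‖ + ‖h y‖ * |Real.log ‖h y‖|) := by ring
  have h9 : ‖h y‖ ^ 2 ≤ ((R + ‖a‖) / ‖b - a‖) ^ 2 := by gcongr
  have h10 : TH363.QI.C₁ * ‖h y‖ ≤ TH363.QI.C₁ * ((R + ‖a‖) / ‖b - a‖) := by gcongr
  apply mul_le_mul_of_nonneg_left _ hba.le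
  linarith

/-- Schottky's theorem for a function omitting two values. -/
theorem schottky2 {a b : ℂ} (hab : a ≠ b) (R : ℝ) : ∃ R' : ℝ, 0 < R' ∧ ∀ (g : ℂ → ℂ) (x : ℂ) (r : ℝ),
    0 < r → DifferentiableOn ℂ g (ball x r) → (∀ w ∈ ball x r, g w ≠ a) →
    (∀ w ∈ ball x r, g w ≠ b) → ‖g x‖ ≤ R → ∀ w ∈ ball x (r / 2), ‖g w‖ ≤ R' := by
  have hba : 0 < ‖b - a‖ := norm_pos_iff.mpr (sub_ne_zero.mpr hab.symm)
  have hba' : b - a ≠ 0 := norm_pos_iff.mp hba
  set M : ℝ := 2 * ((R + ‖a‖) / ‖b - a‖) + 1 with hM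
  set E : ℝ := Real.exp (Real.pi * Real.exp (Real.pi * (M + 386))) with hE
  have hE0 : 0 < E := Real.exp_pos _
  refine ⟨‖b - a‖ * ((E + 1) / 2) + ‖a‖, by positivity, ?_⟩
  intro g x r hr hd ha hb hR w hw
  have hmap : ∀ u ∈ ball (0 : ℂ) 1, x + r * u ∈ ball x r := by
    intro u hu
    rw [mem_ball_zero_iff] at hu
    rw [mem_ball_iff_norm, add_sub_cancel_left, norm_mul, Complex.norm_real, Real.norm_eq_abs,
      abs_of_pos hr]
    nlinarith
  have hfd : DifferentiableOn ℂ (fun u => 2 * ((g (x + r * u) - a) / (b - a)) - 1)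
      (ball 0 1) := by
    intro u hu
    have h2 : DifferentiableAt ℂ g (x + r * u) :=
      (hd _ (hmap u hu)).differentiableAt (isOpen_ball.mem_nhds (hmap u hu))
    have h3 : DifferentiableAt ℂ (fun u : ℂ => x + r * u) u := by fun_prop
    exact ((((h2.comp u h3).sub_const a).div_const (b - a)).const_mul 2).sub_const 1
      |>.differentiableWithinAt
  set u : ℂ := (w - x) / r with hu
  have hrC : (r : ℂ) ≠ 0 := by exact_mod_cast hr.ne'
  have hcw : x + r * u = w := by rw [hu]; field_simp; ring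
  have hun : u ∈ ball (0 : ℂ) (1 / 2) := by
    rw [mem_ball_zero_iff, hu, norm_div, Complex.norm_real, Real.norm_eq_abs, abs_of_pos hr,
      div_lt_iff₀ hr]
    rw [mem_ball_iff_norm] at hw
    linarith
  have h4 := H113G.schottky_all (fun u => 2 * ((g (x + r * u) - a) / (b - a)) - 1) M hfd
    (fun z hz h5 => hb _ (hmap z hz) (by
      have h6 : (g (x + r * z) - a) / (b - a) = 1 := by
        linear_combination h5 / 2
      rw [div_eq_one_iff_eq hba'] at h6
      exact sub_left_injective h6))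
    (fun z hz h5 => ha _ (hmap z hz) (by
      have h6 : (g (x + r * z) - a) / (b - a) = 0 := by
        linear_combination h5 / 2
      rw [div_eq_zero_iff] at h6
      rcases h6 with h6 | h6
      · exact sub_eq_zero.mp h6
      · exact absurd h6 hba'))
    (by
      simp only [mul_zero, add_zero]
      refine (norm_sub_le _ _).trans ?_
      rw [norm_mul, norm_one, hM]
      have h7 : ‖(2 : ℂ)‖ = 2 := by simp
      rw [h7, norm_div]
      gcongr
      exact (norm_sub_le _ _).trans (by linarith)) u hun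
  simp only [hcw] at h4
  rw [← hE] at h4
  have h5 : ‖2 * ((g w - a) / (b - a))‖ ≤ E + 1 := by
    have := norm_add_le (2 * ((g w - a) / (b - a)) - 1) 1
    rw [sub_add_cancel, norm_one] at this
    linarith
  rw [norm_mul, norm_div] at h5
  have h7 : ‖(2 : ℂ)‖ = 2 := by simp
  rw [h7] at h5
  have h8 : ‖g w - a‖ ≤ ‖b - a‖ * ((E + 1) / 2) := by
    have h9 : ‖g w - a‖ / ‖b - a‖ ≤ (E + 1) / 2 := by linarith
    rwa [div_le_iff₀ hba, mul_comm] at h9
  have h10 := norm_add_le (g w - a) a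
  rw [sub_add_cancel] at h10
  linarith

/-- Two distinct roots. -/
theorem two_roots {n : ℕ} (hn : 2 ≤ n) {u : ℂ} (hu : u ≠ 0) :
    ∃ a b : ℂ, a ≠ b ∧ a ^ n = u ∧ b ^ n = u := by
  obtain ⟨a, ha⟩ := IsAlgClosed.exists_pow_nat_eq u (show 0 < n by omega)
  have ha0 : a ≠ 0 := by
    rintro rfl
    rw [zero_pow (by omega)] at ha
    exact hu ha.symm
  have hprim := Complex.isPrimitiveRoot_exp n (by omega)
  set ω : ℂ := Complex.exp (2 * Real.pi * Complex.I / n) with hω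
  refine ⟨a, ω * a, ?_, ha, ?_⟩
  · intro h
    have h1 : ω = 1 := by
      have h2 : (ω - 1) * a = 0 := by linear_combination -h
      rcases mul_eq_zero.mp h2 with h3 | h3
      · exact sub_eq_zero.mp h3
      · exact absurd h3 ha0
    exact hprim.ne_one (by omega) h1
  · rw [mul_pow, hprim.pow_eq_one, one_mul, ha]

end Pool.Agent.H57.Eng
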