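import Pool.Agent.H57.Back

/-!
# Escape times and distances to the filled Julia set near the critical value
-/

set_option autoImplicit false
open Set Filter Topology Metric

namespace Pool.Agent.H57.Queer

open N62a1eb23 Pool.Agent.H57.Eng

variable {n : ℕ} {c : ℂ}

/-- The distance to the filled Julia set of an isolated point of the basin of infinity. -/
theorem dist_far (hn : 2 ≤ n) (hc : ‖c‖ ≤ 2) : ∃ κ : ℝ, 0 < κ ∧ ∀ (k : ℕ) (y : ℂ) (r : ℝ), 2 ≤ k →
    0 < r → (f n c)^[k] y = 4 → (∀ w ∈ ball y r, (f n c)^[k - 1] w ≠ 4) →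
    ∀ w ∉ esc n c, κ * r ≤ dist w y := by
  have h4c : (4 : ℂ) - c ≠ 0 := by
    intro h
    have h1 : (4 : ℂ) = c := sub_eq_zero.mp h
    rw [← h1] at hc
    norm_num at hc
  obtain ⟨a1, a2, ha, h1, h2⟩ := two_roots hn h4c
  obtain ⟨R', hR', hsch⟩ := schottky2 ha 6
  set B : ℝ := (R' ^ n + 2) ^ n + 2 with hB
  have hB2 : 2 ≤ B := by
    have : 0 ≤ (R' ^ n + 2) ^ n := by positivity
    linarith
  refine ⟨1 / (2 * B + 1), by positivity, ?_⟩
  intro k y r hk hr hky hiso w hw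
  obtain ⟨m, rfl⟩ : ∃ m, k = m + 2 := ⟨k - 2, by omega⟩
  have e1 : m + 2 - 1 = m + 1 := by omega
  rw [e1] at hiso
  have hne : ∀ a : ℂ, a ^ n = 4 - c → ∀ w ∈ ball y r, (f n c)^[m] w ≠ a := by
    intro a ha w hw hcon
    apply hiso w hw
    rw [Function.iterate_succ_apply', hcon]
    unfold f
    rw [ha]
    ring
  have hy2 : ‖(f n c)^[2] ((f n c)^[m] y)‖ ≤ 2 + 4 := by
    rw [← Function.iterate_add_apply, add_comm, hky]
    norm_num
  have hR1 : ‖(f n c)^[m] y‖ ≤ 6 := by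
    have := norm_lt_of_iter hn hc (by norm_num : (0 : ℝ) ≤ 4) hy2
    linarith
  have hS := hsch (f n c)^[m] y r hr (diff_iter m).differentiableOn (hne a1 h1) (hne a2 h2) hR1
  have hF : ∀ v ∈ ball y (r / 2), ‖(f n c)^[m + 2] v‖ ≤ B := by
    intro v hv
    rw [Function.iterate_succ_apply', Function.iterate_succ_apply']
    have h5 := hS v hv
    have hstep : ∀ (u : ℂ) (T : ℝ), ‖u‖ ≤ T → ‖f n c u‖ ≤ T ^ n + 2 := by
      intro u T hu
      unfold f
      refine (norm_add_le _ _).trans ?_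
      rw [norm_pow]
      gcongr
    exact hstep _ _ (hstep _ _ h5)
  have hr2 : 0 < r / 2 := by linarith
  have hy : y ∈ ball y (r / 2) := mem_ball_self hr2
  rw [div_mul_eq_mul_div, one_mul, div_le_iff₀ (by positivity)]
  by_cases hwb : w ∈ ball y (r / 2)
  · have hmap : MapsTo (f n c)^[m + 2] (ball y (r / 2))
        (closedBall ((f n c)^[m + 2] y) (2 * B + 1)) := by
      intro v hv
      rw [mem_closedBall, dist_eq_norm]
      have := norm_sub_le ((f n c)^[m + 2] v) ((f n c)^[m + 2] y)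
      linarith [hF v hv, hF y hy]
    have h6 := Complex.dist_le_div_mul_dist_of_mapsTo_ball (diff_iter (m + 2)).differentiableOn
      hmap hwb
    have h7 : 2 ≤ dist ((f n c)^[m + 2] w) ((f n c)^[m + 2] y) := by
      rw [hky, dist_comm, dist_eq_norm]
      have h8 := le_two_of_not_esc hn hc hw (m + 2)
      have h9 := norm_sub_norm_le (4 : ℂ) ((f n c)^[m + 2] w)
      have h10 : ‖(4 : ℂ)‖ = 4 := by simp
      rw [h10] at h9
      linarith
    have h8 : 2 ≤ (2 * B + 1) / (r / 2) * dist w y := h7.trans h6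
    have h9 : (2 * B + 1) / (r / 2) * dist w y * (r / 2) = (2 * B + 1) * dist w y := by
      field_simp
    nlinarith
  · rw [mem_ball, not_lt] at hwb
    nlinarith

lemma log_succ_sq {j : ℕ} (hj : 1 ≤ j) :
    Real.log ((j + 1 : ℕ) : ℝ) ^ 2 ≤ Real.log j ^ 2 + 2 := by
  have hj1 : (1 : ℝ) ≤ j := by exact_mod_cast hj
  have hj0 : (0 : ℝ) < j := by linarith
  have h1 : Real.log ((j + 1 : ℕ) : ℝ) ≤ Real.log j + 1 / j := by
    push_cast
    have h2 : (j : ℝ) + 1 = j * (1 + 1 / j) := by field_simp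
    rw [h2, Real.log_mul hj0.ne' (by positivity)]
    have h3 := Real.log_le_sub_one_of_pos (show (0 : ℝ) < 1 + 1 / j by positivity)
    linarith
  have h0 : 0 ≤ Real.log ((j + 1 : ℕ) : ℝ) := Real.log_natCast_nonneg _
  have h4 : Real.log j ≤ j - 1 := Real.log_le_sub_one_of_pos hj0
  have h5 : 0 ≤ Real.log j := Real.log_natCast_nonneg _
  have h6 : (Real.log j + 1 / j) ^ 2 ≤ Real.log j ^ 2 + 2 := by
    have h7 : (Real.log j + 1 / j) ^ 2 = Real.log j ^ 2 + (2 * Real.log j / j + 1 / j ^ 2) := by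
      field_simp
      ring
    rw [h7]
    have h8 : 2 * Real.log j / j + 1 / (j : ℝ) ^ 2 ≤ 2 * (j - 1) / j + 1 / (j : ℝ) ^ 2 := by
      gcongr
    have h9 : 2 * ((j : ℝ) - 1) / j + 1 / (j : ℝ) ^ 2 ≤ 2 := by
      rw [div_add_div _ _ hj0.ne' (by positivity), div_le_iff₀ (by positivity)]
      nlinarith [mul_nonneg (sub_nonneg.mpr hj1) hj0.le, mul_pos hj0 hj0]
    linarith
  calc Real.log ((j + 1 : ℕ) : ℝ) ^ 2 ≤ (Real.log j + 1 / j) ^ 2 := by gcongr
    _ ≤ _ := h6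

/-- If the points near the critical value which escape in time `k` are quasi-polynomially close to
the filled Julia set, then density of hyperbolicity holds. -/
theorem escape (hn : 2 ≤ n) : ∃ C : ℝ, 0 < C ∧ ∀ c ∈ multibrotSet n,
    c ∈ closure (esc n c) → ∀ ρ : ℝ, 0 < ρ →
    (∀ᶠ k : ℕ in atTop, ∀ z : ℂ, ‖z - c‖ < ρ → ‖(f n c)^[k] z‖ ≤ 3 → 3 < ‖(f n c)^[k + 1] z‖ →
      infDist z (esc n c)ᶜ ≤ Real.exp (-(C * Real.log k ^ 2))) → c ∈ closure (hyp n) := by
  obtain ⟨C, hC, h⟩ := isolated hn 0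
  refine ⟨C + 1, by linarith, ?_⟩
  intro c hc hesc ρ hρ hdist
  by_contra hcl
  have hc2 := norm_c_le hn hc
  have hb : (4 : ℂ) ≠ c := by
    intro h1
    rw [← h1] at hc2
    norm_num at hc2
  have hsafe : Safe n c 0 4 := by
    right
    refine Eventually.of_forall fun j => ?_
    have h1 := orb_le_two hn hc j
    have h2 := norm_sub_norm_le (4 : ℂ) ((f n c)^[j] c)
    have h10 : ‖(4 : ℂ)‖ = 4 := by simp
    rw [h10, norm_sub_rev] at h2
    unfold L
    rw [zero_mul, neg_zero, Real.exp_zero]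
    linarith
  obtain ⟨κ, hκ, hfar⟩ := dist_far hn hc2
  have h3 := h c hc hcl hesc 4 hb hsafe ρ hρ
  have hdist' : ∀ᶠ k : ℕ in atTop, ∀ z : ℂ, ‖z - c‖ < ρ → ‖(f n c)^[k - 1] z‖ ≤ 3 →
      3 < ‖(f n c)^[k - 1 + 1] z‖ →
      infDist z (esc n c)ᶜ ≤ Real.exp (-((C + 1) * Real.log ((k - 1 : ℕ) : ℝ) ^ 2)) :=
    (tendsto_sub_atTop_nat 1).eventually hdist
  have hbig := (tendsto_sub_atTop_nat 1).eventually (big (Real.exp (2 * C) / κ))
  obtain ⟨k, ⟨y, hy1, hy2, hy3⟩, h4, h5, h6⟩ :=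
    (h3.and_eventually (hdist'.and (hbig.and (eventually_ge_atTop 2)))).exists
  obtain ⟨j, rfl⟩ : ∃ j, k = j + 1 := ⟨k - 1, by omega⟩
  rw [Nat.add_sub_cancel] at h4 h5 hy3
  have hj : 1 ≤ j := by omega
  have h7 : ‖(f n c)^[j] y‖ ≤ 3 := by
    by_contra hcon
    push Not at hcon
    have h8 := norm_f_ge hn hc2 (s := 1) (by norm_num) (z := (f n c)^[j] y) (by linarith)
    rw [← Function.iterate_succ_apply' (f n c) j y, hy1] at h8
    norm_num at h8
  have h8 : 3 < ‖(f n c)^[j + 1] y‖ := by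
    rw [hy1]
    norm_num
  have h9 := h4 y hy2 h7 h8
  have h10 : κ * L C (j + 1 : ℕ) ≤ infDist y (esc n c)ᶜ := by
    rw [Metric.le_infDist ⟨c, c_not_esc hn hc⟩]
    intro w hw
    rw [dist_comm]
    exact hfar (j + 1) y _ h6 (L_pos _ _) hy1 (by rwa [Nat.add_sub_cancel]) w hw
  have h11 := log_succ_sq hj
  have h12 : Real.exp (-(C * Real.log j ^ 2)) * Real.exp (-(2 * C)) ≤ L C (j + 1 : ℕ) := by
    unfold L
    rw [← Real.exp_add]
    apply Real.exp_le_exp.mpr
    nlinarith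
  have h13 : κ * (Real.exp (-(C * Real.log j ^ 2)) * Real.exp (-(2 * C))) ≤
      Real.exp (-((C + 1) * Real.log j ^ 2)) := by
    refine le_trans ?_ (h10.trans h9)
    gcongr
  have h14 : Real.exp (-((C + 1) * Real.log j ^ 2)) =
      Real.exp (-(C * Real.log j ^ 2)) * Real.exp (-(Real.log j ^ 2)) := by
    rw [← Real.exp_add]
    congr 1
    ring
  rw [h14, mul_left_comm] at h13
  have h15 : κ * Real.exp (-(2 * C)) ≤ Real.exp (-(Real.log j ^ 2)) :=
    le_of_mul_le_mul_left h13 (Real.exp_pos _)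
  rw [Real.exp_neg, Real.exp_neg] at h15
  have h16 : Real.exp (Real.log j ^ 2) ≤ Real.exp (2 * C) / κ := by
    have e1 := Real.exp_pos (2 * C)
    have e2 := Real.exp_pos (Real.log (j : ℝ) ^ 2)
    rw [le_div_iff₀ hκ]
    rw [← div_eq_mul_inv, div_le_iff₀ e1] at h15
    calc Real.exp (Real.log j ^ 2) * κ ≤ Real.exp (Real.log j ^ 2) *
          ((Real.exp (Real.log j ^ 2))⁻¹ * Real.exp (2 * C)) := by gcongr
      _ = _ := by field_simp
  have hj1 : (1 : ℝ) ≤ j := by exact_mod_cast hj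
  have h17 : Real.exp (2 * C) / κ * 1 ≤ Real.exp (2 * C) / κ * (j * (j + 1)) := by
    gcongr
    nlinarith
  linarith

end Pool.Agent.H57.Queer
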