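import Pool.Agent.H57.Back
import Pool.Graph.R_seed8.H712R2.Par

/-!
# Multipliers of the cycles near the critical value
-/

set_option autoImplicit false
open Set Filter Topology Metric

namespace Pool.Agent.H57.Queer

open N62a1eb23 Pool.Agent.H57.Eng

variable {n : ℕ} {c : ℂ}

/-- A branch of the root of `w - c` on a disc which does not contain `c`. -/
lemma exists_root (hn : 2 ≤ n) {x : ℂ} {r : ℝ} (hr : 0 < r) (hrx : r ≤ ‖x - c‖) :
    ∃ g : ℂ → ℂ, DifferentiableOn ℂ g (ball x r) ∧ (∀ w ∈ ball x r, g w ^ n = w - c) ∧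
      (∀ w ∈ ball x r, g w ≠ 0) ∧ HasDerivAt g (g x / (n * (x - c))) x := by
  have hne : ∀ w ∈ ball x r, w - c ≠ 0 := by
    intro w hw h
    have h1 : w = c := sub_eq_zero.mp h
    rw [h1, mem_ball, dist_comm, dist_eq_norm] at hw
    linarith
  have hx : x ∈ ball x r := mem_ball_self hr
  have hn0 : (n : ℂ) ≠ 0 := by exact_mod_cast (by omega : n ≠ 0)
  obtain ⟨ℓ, h1, h2, h3⟩ := Pool.Agent.H712R2.M.exists_log_ball (g := fun w => w - c) hr
    (by fun_prop) hne (Complex.log (x - c)) (Complex.exp_log (hne x hx))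
  have hpow : ∀ w ∈ ball x r, Complex.exp (ℓ w / n) ^ n = w - c := by
    intro w hw
    rw [← Complex.exp_nat_mul, mul_div_cancel₀ _ hn0]
    exact h3 w hw
  refine ⟨fun w => Complex.exp (ℓ w / n), ?_, hpow, fun w _ => Complex.exp_ne_zero _, ?_⟩
  · exact (h1.div_const _).cexp
  · have hd : HasDerivAt ℓ (deriv ℓ x) x :=
      ((h1 x hx).differentiableAt (isOpen_ball.mem_nhds hx)).hasDerivAt
    have h4 : HasDerivAt (fun w => Complex.exp (ℓ w)) (Complex.exp (ℓ x) * deriv ℓ x) x := hd.cexp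
    have h5 : (fun w => Complex.exp (ℓ w)) =ᶠ[𝓝 x] fun w => w - c := by
      filter_upwards [isOpen_ball.mem_nhds hx] with w hw using h3 w hw
    have h6 : HasDerivAt (fun w : ℂ => w - c) 1 x := (hasDerivAt_id x).sub_const c
    have h7 : Complex.exp (ℓ x) * deriv ℓ x = 1 := (h4.congr_of_eventuallyEq h5.symm).unique h6
    rw [h3 x hx] at h7
    have h8 : deriv ℓ x = 1 / (x - c) := by
      rw [eq_div_iff (hne x hx), mul_comm]
      exact h7
    have h9 := (hd.div_const (n : ℂ)).cexp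
    have h10 : Complex.exp (ℓ x / n) / (n * (x - c)) = Complex.exp (ℓ x / n) * (deriv ℓ x / n) := by
      rw [h8]
      have := hne x hx
      field_simp
    rw [h10]
    exact h9

/-- Periodic points accumulate at the critical value. -/
theorem accum_per (hn : 2 ≤ n) (hc : c ∈ multibrotSet n) (hh : c ∉ hyp n)
    (hesc : c ∈ closure (esc n c)) {δ : ℝ} (hδ : 0 < δ) :
    ∃ j, 1 ≤ j ∧ ∃ y : ℂ, (f n c)^[j] y = y ∧ ‖y - c‖ < δ := by
  by_contra hcon
  push Not at hcon
  have hc2 := norm_c_le hn hc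
  have hc0 : (0 : ℂ) ≠ c := by
    have := orb_ne_zero hn hh 0
    simpa using this.symm
  obtain ⟨x, hx, j0, -, hj0⟩ := accum hn hc2 hesc (c_not_esc hn hc) hc0 0 hδ
  rw [mem_ball_iff_norm] at hx
  have hxc : x ≠ c := by
    rintro rfl
    exact orb_ne_zero hn hh j0 hj0
  have hit : (f n c)^[j0 + 1] x = c := by
    rw [Function.iterate_succ_apply', hj0, f_zero hn]
  have hx1 : x ∈ closure (esc n c) := closure_esc_of_iter (k := j0 + 1) hn (by rwa [hit])
  have hx2 : x ∉ esc n c := by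
    intro h
    have := iter_of_esc (j0 + 1) h
    rw [hit] at this
    exact c_not_esc hn hc this
  have hs : 0 < ‖x - c‖ := norm_pos_iff.mpr (sub_ne_zero.mpr hxc)
  set r : ℝ := min ‖x - c‖ (δ - ‖x - c‖) with hr
  have hr0 : 0 < r := lt_min hs (by linarith)
  obtain ⟨g, hg1, hg2, hg3, -⟩ := exists_root hn hr0 (min_le_left _ _ : r ≤ ‖x - c‖)
  have hprim := Complex.isPrimitiveRoot_exp n (by omega)
  set ω : ℂ := Complex.exp (2 * Real.pi * Complex.I / n) with hω
  have hω1 : (1 : ℂ) ≠ ω := (hprim.ne_one (by omega)).symm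
  have hxb : x ∈ ball x r := mem_ball_self hr0
  obtain ⟨R', hR'0, hR'⟩ := schottky2 hω1 (2 / ‖g x‖)
  have hne : ∀ (j : ℕ) (a : ℂ), a ^ n = 1 → ∀ w ∈ ball x r, (f n c)^[j] w / g w ≠ a := by
    intro j a ha w hw h
    rw [div_eq_iff (hg3 w hw)] at h
    have h1 : ‖w - c‖ < δ := by
      rw [mem_ball_iff_norm] at hw
      have h2 : r ≤ δ - ‖x - c‖ := min_le_right _ _
      calc ‖w - c‖ = ‖(w - x) + (x - c)‖ := by ring_nf
        _ ≤ ‖w - x‖ + ‖x - c‖ := norm_add_le _ _
        _ < δ := by linarith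
    have h2 := hcon (j + 1) (by omega) w (by
      rw [Function.iterate_succ_apply', h]
      unfold f
      rw [mul_pow, ha, one_mul, hg2 w hw]
      ring)
    linarith
  have key : ∀ j : ℕ, ∀ w ∈ ball x (r / 2), ‖(f n c)^[j] w‖ ≤ R' * (1 + δ) := by
    intro j w hw
    have hw' : w ∈ ball x r := ball_subset_ball (by linarith) hw
    have h1 := hR' (fun w => (f n c)^[j] w / g w) x r hr0
      ((diff_iter j).differentiableOn.div hg1 hg3) (hne j 1 (one_pow n))
      (hne j ω hprim.pow_eq_one) (by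
        rw [norm_div]
        gcongr
        exact le_two_of_not_esc hn hc2 hx2 j) w hw
    have hgw : 0 < ‖g w‖ := norm_pos_iff.mpr (hg3 w hw')
    rw [norm_div, div_le_iff₀ hgw] at h1
    have h2 : ‖g w‖ ≤ 1 + δ := by
      have h3 : ‖g w‖ ^ n = ‖w - c‖ := by rw [← norm_pow, hg2 w hw']
      have h4 : ‖w - c‖ < δ := by
        rw [mem_ball_iff_norm] at hw'
        have h2 : r ≤ δ - ‖x - c‖ := min_le_right _ _
        calc ‖w - c‖ = ‖(w - x) + (x - c)‖ := by ring_nf
          _ ≤ ‖w - x‖ + ‖x - c‖ := norm_add_le _ _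
          _ < δ := by linarith
      by_contra h5
      push Not at h5
      have h6 : ‖g w‖ ≤ ‖g w‖ ^ n := le_self_pow₀ (by linarith) (by omega)
      linarith
    exact h1.trans (by gcongr)
  obtain ⟨w, hw, hw2⟩ := Metric.mem_closure_iff.mp hx1 (r / 2) (by positivity)
  exact not_esc_of_bdd (fun k => key k w (by rwa [mem_ball, dist_comm])) hw

/-- The bound of the multiplier of a cycle at an isolated point. -/
theorem mult_bound (hn : 2 ≤ n) (hc : ‖c‖ ≤ 2) : ∃ K : ℝ, 0 < K ∧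
    ∀ (k : ℕ) (y : ℂ) (r : ℝ), 2 ≤ k → 0 < r → r ≤ ‖y - c‖ → (f n c)^[k] y = y → ‖y‖ ≤ 2 →
      (∀ w ∈ ball y r, (f n c)^[k - 1] w ≠ w) →
      ‖deriv (f n c)^[k] y‖ * (r * ‖y - c‖ ^ 2) ≤ K := by
  have hprim := Complex.isPrimitiveRoot_exp n (by omega)
  set ω : ℂ := Complex.exp (2 * Real.pi * Complex.I / n) with hω
  have hω1 : (1 : ℂ) ≠ ω := (hprim.ne_one (by omega)).symm
  have hd0 : 0 < ‖ω - 1‖ := norm_pos_iff.mpr (sub_ne_zero.mpr hω1.symm)
  set e : ℝ := ‖ω - 1‖ with he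
  have hC := TH363.QI.C₁_nonneg
  set K1 : ℝ := e * (4 * (TH363.QI.C₁ * (12 / e) * 16 + 16 + (12 / e) ^ 2)) with hK1
  have hK10 : 0 ≤ K1 := by positivity
  refine ⟨(n * 2 ^ (n - 1)) ^ 2 * (5 * K1 + 16) + 1, by positivity, ?_⟩
  intro k y r hk hr hrs hky hy2 hiso
  obtain ⟨m, rfl⟩ : ∃ m, k = m + 2 := ⟨k - 2, by omega⟩
  have e1 : m + 2 - 1 = m + 1 := by omega
  rw [e1] at hiso
  set s : ℝ := ‖y - c‖ with hs
  have hs0 : 0 < s := lt_of_lt_of_le hr hrs
  have hs4 : s ≤ 4 := (norm_sub_le _ _).trans (by linarith)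
  have hyb : y ∈ ball y r := mem_ball_self hr
  obtain ⟨g, hg1, hg2, hg3, hg4⟩ := exists_root hn hr hrs
  have hgy0 : 0 < ‖g y‖ := norm_pos_iff.mpr (hg3 y hyb)
  have hgyn : ‖g y‖ ^ n = s := by rw [← norm_pow, hg2 y hyb]
  have hgy1 : s / 4 ≤ ‖g y‖ := by
    by_contra h
    push Not at h
    have h1 : ‖g y‖ ^ n < (s / 4) ^ n := by
      apply pow_lt_pow_left₀ h (norm_nonneg _) (by omega)
    have h2 : (s / 4) ^ n ≤ (s / 4) ^ 1 := pow_le_pow_of_le_one (by positivity) (by linarith)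
      (by omega)
    rw [pow_one] at h2
    linarith
  have hgy2 : ‖g y‖ ≤ 5 := by
    by_contra h5
    push Not at h5
    have h6 : ‖g y‖ ≤ ‖g y‖ ^ n := le_self_pow₀ (by linarith) (by omega)
    linarith
  -- all the points of the cycle are in the disc of radius two
  have hcyc : ∀ i ≤ m + 2, ‖(f n c)^[i] y‖ ≤ 2 := by
    intro i hi
    have h1 : ‖(f n c)^[m + 2 - i] ((f n c)^[i] y)‖ ≤ 2 + 0 := by
      rw [← Function.iterate_add_apply, Nat.sub_add_cancel hi, hky]
      linarith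
    have := norm_lt_of_iter hn hc le_rfl h1
    linarith
  set φ : ℂ → ℂ := fun w => (f n c)^[m] w / g w with hφ
  have hne : ∀ (a : ℂ), a ^ n = 1 → ∀ w ∈ ball y r, φ w ≠ a := by
    intro a ha w hw h
    have h' : (f n c)^[m] w / g w = a := h
    rw [div_eq_iff (hg3 w hw)] at h'
    apply hiso w hw
    rw [Function.iterate_succ_apply', h']
    unfold f
    rw [mul_pow, ha, one_mul, hg2 w hw]
    ring
  have hφy : ‖φ y‖ ≤ 8 / s := by
    have h1 : ‖φ y‖ = ‖(f n c)^[m] y‖ / ‖g y‖ := norm_div _ _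
    rw [h1, div_le_div_iff₀ hgy0 hs0]
    have h2 := hcyc m (by omega)
    nlinarith
  have hφd : DifferentiableOn ℂ φ (ball y r) := (diff_iter m).differentiableOn.div hg1 hg3
  have h3 := landau2 hr hω1 hφd (hne 1 (one_pow n)) (hne ω hprim.pow_eq_one) hφy
  rw [norm_one, ← he] at h3
  -- the derivative of the iterate
  have hφ' : HasDerivAt φ (deriv φ y) y :=
    ((hφd y hyb).differentiableAt (isOpen_ball.mem_nhds hyb)).hasDerivAt
  have h4 : HasDerivAt (fun w => φ w * g w) (deriv φ y * g y + φ y * (g y / (n * (y - c)))) y :=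
    hφ'.mul hg4
  have h5 : (fun w => φ w * g w) =ᶠ[𝓝 y] (f n c)^[m] := by
    filter_upwards [isOpen_ball.mem_nhds hyb] with w hw
    simp only [hφ]
    exact div_mul_cancel₀ _ (hg3 w hw)
  have h6 : deriv (f n c)^[m] y = deriv φ y * g y + φ y * (g y / (n * (y - c))) :=
    (h4.congr_of_eventuallyEq h5.symm).deriv
  have h7 : φ y * (g y / (n * (y - c))) = (f n c)^[m] y / (n * (y - c)) := by
    have := h5.self_of_nhds
    simp only at this
    rw [← this]
    ring
  have hn2 : (2 : ℝ) ≤ n := by exact_mod_cast hn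
  have h8 : ‖(f n c)^[m] y / (n * (y - c))‖ ≤ 1 / s := by
    rw [norm_div, norm_mul, Complex.norm_natCast, ← hs, div_le_div_iff₀ (by positivity) hs0]
    have := hcyc m (by omega)
    nlinarith
  have h9 : ‖deriv (f n c)^[m] y‖ ≤ ‖deriv φ y‖ * ‖g y‖ + 1 / s := by
    rw [h6, h7]
    refine (norm_add_le _ _).trans ?_
    rw [norm_mul]
    linarith
  -- the bound of the derivative of `φ`
  have hs16 : s ^ 2 ≤ 16 := by nlinarith
  have h10 : ‖deriv φ y‖ * r * s ^ 2 ≤ K1 := by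
    have h11 : (8 / s + 1) / e ≤ 12 / (s * e) := by
      rw [div_le_div_iff₀ hd0 (by positivity)]
      have : 8 / s + 1 ≤ 12 / s := by
        rw [div_add_one hs0.ne', div_le_div_iff_of_pos_right hs0]
        linarith
      calc (8 / s + 1) * (s * e) ≤ 12 / s * (s * e) := by gcongr
        _ = 12 * e := by field_simp
    have h12 : ‖deriv φ y‖ * r ≤ e * (4 * (TH363.QI.C₁ * (12 / (s * e)) + 1 +
        (12 / (s * e)) ^ 2)) := by
      refine h3.trans ?_
      gcongr
    calc ‖deriv φ y‖ * r * s ^ 2 ≤ e * (4 * (TH363.QI.C₁ * (12 / (s * e)) + 1 +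
        (12 / (s * e)) ^ 2)) * s ^ 2 := by gcongr
      _ = e * (4 * (TH363.QI.C₁ * (12 / e) * s + s ^ 2 + (12 / e) ^ 2)) := by
        field_simp
      _ ≤ K1 := by
        rw [hK1]
        gcongr
        linarith
  have h13 : ‖deriv (f n c)^[m] y‖ * (r * s ^ 2) ≤ 5 * K1 + 16 := by
    calc ‖deriv (f n c)^[m] y‖ * (r * s ^ 2) ≤ (‖deriv φ y‖ * ‖g y‖ + 1 / s) * (r * s ^ 2) := by
          gcongr
      _ = ‖g y‖ * (‖deriv φ y‖ * r * s ^ 2) + r * s := by
          field_simp
      _ ≤ 5 * K1 + 4 * 4 := by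
          gcongr
          exact hrs.trans hs4
      _ = _ := by ring
  have h14 := deriv_two hn (by norm_num : (0 : ℝ) ≤ 2) (hcyc m (by omega)) (hcyc (m + 1) (by omega))
  calc ‖deriv (f n c)^[m + 2] y‖ * (r * s ^ 2)
      ≤ (n * 2 ^ (n - 1)) ^ 2 * ‖deriv (f n c)^[m] y‖ * (r * s ^ 2) := by gcongr
    _ = (n * 2 ^ (n - 1)) ^ 2 * (‖deriv (f n c)^[m] y‖ * (r * s ^ 2)) := by ring
    _ ≤ (n * 2 ^ (n - 1)) ^ 2 * (5 * K1 + 16) := by gcongr
    _ ≤ _ := by linarith

/-- Quasi-polynomial growth of the multipliers of the cycles near the critical value implies density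
of hyperbolicity. -/
theorem cyc (hn : 2 ≤ n) : ∃ C : ℝ, 0 < C ∧ ∀ c ∈ multibrotSet n,
    c ∈ closure (esc n c) → ∀ ρ : ℝ, 0 < ρ →
    (∀ᶠ p : ℕ in atTop, ∀ z : ℂ, ‖z - c‖ < ρ → Function.minimalPeriod (f n c) z = p →
      Real.exp (C * Real.log p ^ 2) ≤ ‖deriv (f n c)^[p] z‖) → c ∈ closure (hyp n) := by
  obtain ⟨C, hC, h⟩ := low_per hn
  refine ⟨3 * C + 2, by linarith, ?_⟩
  intro c hc hesc ρ hρ hgrow
  by_contra hcl
  have hh : c ∉ hyp n := fun h => hcl (subset_closure h)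
  have hc2 := norm_c_le hn hc
  set S : ℕ → Set ℂ := fun j => {y | 1 ≤ j ∧ (f n c)^[j] y = y} with hS
  have hcl' : ∀ j, IsClosed (S j) := by
    intro j
    rcases Nat.eq_zero_or_pos j with h1 | h1
    · have : S j = ∅ := by
        ext y
        simp only [hS, Set.mem_ofPred_eq, mem_empty_iff_false, iff_false, not_and]
        omega
      rw [this]
      exact isClosed_empty
    · have : S j = {y | (f n c)^[j] y = y} := by
        ext y
        simp only [hS, Set.mem_ofPred_eq, and_iff_right_iff_imp]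
        intro _
        exact h1
      rw [this]
      exact isClosed_eq (diff_iter j).continuous continuous_id
  have hcS : ∀ j, c ∉ S j := by
    rintro j ⟨hj1, hj2⟩
    obtain ⟨i, rfl⟩ : ∃ i, j = i + 1 := ⟨j - 1, by omega⟩
    rw [Function.iterate_succ_apply'] at hj2
    have h1 : ((f n c)^[i] c) ^ n = 0 := by
      have h2 : ((f n c)^[i] c) ^ n + c = c := hj2
      linear_combination h2
    exact orb_ne_zero hn hh i ((pow_eq_zero_iff (by omega)).mp h1)
  have hlow : ∀ᶠ j : ℕ in atTop, ∀ y ∈ S j, L C j ≤ ‖y - c‖ := by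
    filter_upwards [h c hc hcl] with j hj y hy using hj y hy.2
  have hacc : ∀ δ : ℝ, 0 < δ → ∃ j, ∃ y ∈ S j, ‖y - c‖ < δ := by
    intro δ hδ
    obtain ⟨j, hj, y, hy, hy2⟩ := accum_per hn hc hh hesc hδ
    exact ⟨j, y, ⟨hj, hy⟩, hy2⟩
  have key := engine hC hcl' hcS hlow hacc hρ
  obtain ⟨K, hK, hb⟩ := mult_bound (c := c) hn hc2
  obtain ⟨k, ⟨y, hy, hy2, hy3⟩, h4, h5, h6, h7⟩ :=
    (key.and_eventually (hgrow.and ((big K).and ((eventually_ge_atTop 2).and hlow)))).exists
  have hLpos := L_pos (C + 1) k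
  have hyk : (f n c)^[k] y = y := hy.2
  have hmin : Function.minimalPeriod (f n c) y = k := by
    have hp : Function.IsPeriodicPt (f n c) k y := hyk
    have h1 : Function.minimalPeriod (f n c) y ≤ k := hp.minimalPeriod_le (by omega)
    have h2 : 0 < Function.minimalPeriod (f n c) y := hp.minimalPeriod_pos (by omega)
    by_contra hne
    exact hy3 y (mem_ball_self hLpos) (Function.minimalPeriod (f n c) y) (by omega)
      ⟨h2, Function.iterate_minimalPeriod⟩
  have hy2' : ‖y‖ ≤ 2 := by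
    by_contra hcon
    push Not at hcon
    have h1 := mem_esc_of_gt hn hc2 hcon
    apply not_esc_of_bdd (R := ∑ i ∈ Finset.range k, ‖(f n c)^[i] y‖) _ h1
    intro i
    have h2 : (f n c)^[i] y = (f n c)^[i % k] y := by
      conv_lhs => rw [← Nat.mod_add_div i k, Function.iterate_add_apply]
      congr 1
      exact (Function.IsPeriodicPt.mul_const (show Function.IsPeriodicPt (f n c) k y from hyk) _)
    rw [h2]
    exact Finset.single_le_sum (f := fun i => ‖(f n c)^[i] y‖) (fun _ _ => norm_nonneg _)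
      (Finset.mem_range.mpr (Nat.mod_lt _ (by omega)))
  have hs := h7 y hy
  have hrs : L (C + 1) k ≤ ‖y - c‖ := (L_mono (by linarith) k).trans hs
  have h8 := hb k y (L (C + 1) k) h6 hLpos hrs hyk hy2' (by
    intro w hw hcon
    exact hy3 w hw (k - 1) (by omega) ⟨by omega, hcon⟩)
  have h9 := h4 y hy2 hmin
  have h10 : Real.exp (Real.log k ^ 2) ≤ K := by
    have h11 : Real.exp ((3 * C + 2) * Real.log k ^ 2) * (L (C + 1) k * L C k ^ 2) =
        Real.exp (Real.log k ^ 2) := by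
      unfold L
      rw [← Real.exp_nat_mul, ← Real.exp_add, ← Real.exp_add]
      congr 1
      push_cast
      ring
    rw [← h11]
    refine le_trans ?_ h8
    have hLk := L_pos C k
    gcongr
  have hk2 : (2 : ℝ) ≤ k := by exact_mod_cast h6
  have h12 : K * 1 ≤ K * (k * (k + 1)) := by
    gcongr
    nlinarith
  linarith

end Pool.Agent.H57.Queer
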