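import Pool.Agent.H57.Defs
import Pool.Agent.H57.Eng
import Pool.Graph.R_seed8.H548R3.MB.Eff2
import Pool.Graph.R_seed8.H712R2.MultibrotConnected

/-!
# Parameters of the Multibrot sets which are not limits of hyperbolic parameters
-/

set_option autoImplicit false
open Set Filter Topology Metric

namespace Pool.Agent.H57.Queer

open N62a1eb23 Pool.Agent.H57.Eng

variable {n : ℕ} {c : ℂ}

lemma diff_f : Differentiable ℂ (f n c) := by
  unfold f
  fun_prop

lemma diff_iter (k : ℕ) : Differentiable ℂ (f n c)^[k] := diff_f.iterate k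

lemma f_zero (hn : 2 ≤ n) : f n c 0 = c := by
  unfold f
  rw [zero_pow (by omega), zero_add]

lemma iter_zero (hn : 2 ≤ n) (k : ℕ) : (f n c)^[k + 1] 0 = (f n c)^[k] c := by
  rw [Function.iterate_succ_apply, f_zero hn]

lemma orb_le_two (hn : 2 ≤ n) (hc : c ∈ multibrotSet n) (k : ℕ) : ‖(f n c)^[k] c‖ ≤ 2 := by
  have h := (Pool.Agent.H712R2.mem_multibrot_iff hn c).mp hc (k + 1)
  rwa [← Pool.Agent.H712R2.iter_c hn k c] at h

lemma norm_c_le (hn : 2 ≤ n) (hc : c ∈ multibrotSet n) : ‖c‖ ≤ 2 := by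
  have := orb_le_two hn hc 0
  simpa using this

lemma orb_ne_zero (hn : 2 ≤ n) (hc : c ∉ hyp n) (k : ℕ) : (f n c)^[k] c ≠ 0 := by
  intro h
  apply hc
  refine ⟨k + 1, 0, ?_⟩
  apply Pool.Agent.H548R3.MB.att_of_centre hn (by omega)
  have := iter_zero (c := c) hn k
  rw [h] at this
  exact this

lemma norm_f_ge (hn : 2 ≤ n) (hc : ‖c‖ ≤ 2) {z : ℂ} {s : ℝ} (hs : 0 ≤ s) (hz : 2 + s ≤ ‖z‖) :
    2 + 4 * s ≤ ‖f n c z‖ := by
  unfold f
  have h1 : ‖z‖ ^ 2 ≤ ‖z‖ ^ n := pow_le_pow_right₀ (by linarith) hn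
  have h2 : ‖z ^ n‖ - ‖c‖ ≤ ‖z ^ n + c‖ := norm_sub_le_norm_add _ _
  rw [norm_pow] at h2
  nlinarith

lemma norm_iter_ge (hn : 2 ≤ n) (hc : ‖c‖ ≤ 2) {z : ℂ} {s : ℝ} (hs : 0 ≤ s) (hz : 2 + s ≤ ‖z‖)
    (k : ℕ) : 2 + 4 ^ k * s ≤ ‖(f n c)^[k] z‖ := by
  induction k with
  | zero => simpa using hz
  | succ k ih =>
    rw [Function.iterate_succ_apply']
    have := norm_f_ge hn hc (by positivity) ih
    rw [pow_succ]
    linarith

lemma mem_esc_of_gt (hn : 2 ≤ n) (hc : ‖c‖ ≤ 2) {z : ℂ} (hz : 2 < ‖z‖) : z ∈ esc n c := by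
  have hs : 0 < ‖z‖ - 2 := by linarith
  have h1 : Tendsto (fun k : ℕ => 2 + (4 : ℝ) ^ k * (‖z‖ - 2)) atTop atTop := by
    apply tendsto_atTop_add_const_left
    exact (tendsto_pow_atTop_atTop_of_one_lt (by norm_num)).atTop_mul_const hs
  exact tendsto_atTop_mono (fun k => norm_iter_ge hn hc hs.le (by linarith) k) h1

lemma esc_of_iter {z : ℂ} {k : ℕ} (h : (f n c)^[k] z ∈ esc n c) : z ∈ esc n c := by
  unfold esc at h ⊢
  rw [Set.mem_ofPred_eq] at h ⊢
  have h2 : (fun j : ℕ => ‖(f n c)^[j] ((f n c)^[k] z)‖) =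
      fun j : ℕ => (fun i : ℕ => ‖(f n c)^[i] z‖) (j + k) := by
    funext j
    simp only [Function.iterate_add_apply]
  rw [h2] at h
  exact (tendsto_add_atTop_iff_nat k).mp h

lemma iter_of_esc {z : ℂ} (k : ℕ) (h : z ∈ esc n c) : (f n c)^[k] z ∈ esc n c := by
  unfold esc at h ⊢
  rw [Set.mem_ofPred_eq] at h ⊢
  have h2 : (fun j : ℕ => ‖(f n c)^[j] ((f n c)^[k] z)‖) =
      fun j : ℕ => (fun i : ℕ => ‖(f n c)^[i] z‖) (j + k) := by
    funext j
    simp only [Function.iterate_add_apply]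
  rw [h2]
  exact (tendsto_add_atTop_iff_nat k).mpr h

lemma le_two_of_not_esc (hn : 2 ≤ n) (hc : ‖c‖ ≤ 2) {z : ℂ} (hz : z ∉ esc n c) (k : ℕ) :
    ‖(f n c)^[k] z‖ ≤ 2 := by
  by_contra hcon
  push Not at hcon
  exact hz (esc_of_iter (mem_esc_of_gt hn hc hcon))

lemma exists_gt_of_esc {z : ℂ} (h : z ∈ esc n c) (R : ℝ) : ∃ k : ℕ, R < ‖(f n c)^[k] z‖ :=
  (h.eventually (eventually_gt_atTop R)).exists

lemma not_esc_of_bdd {z : ℂ} {R : ℝ} (h : ∀ k : ℕ, ‖(f n c)^[k] z‖ ≤ R) : z ∉ esc n c := by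
  intro h1
  obtain ⟨k, hk⟩ := exists_gt_of_esc h1 R
  exact absurd (h k) (not_le.mpr hk)

lemma c_not_esc (hn : 2 ≤ n) (hc : c ∈ multibrotSet n) : c ∉ esc n c :=
  not_esc_of_bdd (orb_le_two hn hc)

/-- The polynomial `f` is an open map at every point. -/
lemma nhds_le_map (hn : 2 ≤ n) (x : ℂ) : 𝓝 (f n c x) ≤ map (f n c) (𝓝 x) := by
  have han : AnalyticAt ℂ (f n c) x := diff_f.analyticAt x
  rcases han.eventually_constant_or_nhds_le_map_nhds with h | h
  · exfalso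
    -- the derivative vanishes near `x`
    have h1 : ∀ᶠ z in 𝓝 x, deriv (f n c) z = 0 := by
      filter_upwards [h.eventually_nhds] with z hz
      have h2 : f n c =ᶠ[𝓝 z] fun _ => f n c x := hz
      rw [h2.deriv_eq, deriv_const]
    have h2 : ∀ z : ℂ, deriv (f n c) z = n * z ^ (n - 1) := by
      intro z
      have := (hasDerivAt_pow n z).add_const c
      exact this.deriv
    have h3 : ∀ᶠ z in 𝓝 x, z = 0 := by
      filter_upwards [h1] with z hz
      rw [h2] at hz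
      have hn0 : (n : ℂ) ≠ 0 := by exact_mod_cast (by omega : n ≠ 0)
      rcases mul_eq_zero.mp hz with h4 | h4
      · exact absurd h4 hn0
      · exact pow_eq_zero_iff (by omega : n - 1 ≠ 0) |>.mp h4
    have h4 : ∃ᶠ z in 𝓝[≠] x, z = 0 := (h3.filter_mono nhdsWithin_le_nhds).frequently
    have h5 : x = 0 := h3.self_of_nhds
    have h6 : ∀ᶠ z in 𝓝[≠] x, z ≠ 0 := by
      rw [h5]
      exact self_mem_nhdsWithin
    exact h4 (h6.mono fun z hz => hz)
  · exact h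

lemma closure_esc_of_f (hn : 2 ≤ n) {x : ℂ} (h : f n c x ∈ closure (esc n c)) :
    x ∈ closure (esc n c) := by
  rw [mem_closure_iff_frequently] at h ⊢
  intro hcon
  apply h
  have h1 : ∀ᶠ z in 𝓝 x, f n c z ∉ esc n c := by
    filter_upwards [hcon] with z hz h2
    exact hz (esc_of_iter (k := 1) h2)
  exact nhds_le_map hn x h1

lemma closure_esc_of_iter (hn : 2 ≤ n) {x : ℂ} {k : ℕ}
    (h : (f n c)^[k] x ∈ closure (esc n c)) : x ∈ closure (esc n c) := by
  induction k generalizing x with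
  | zero => simpa using h
  | succ k ih =>
    rw [Function.iterate_succ_apply] at h
    exact closure_esc_of_f hn (ih h)

/-- Preimages of every point `b ≠ c` accumulate at the points of the Julia set. -/
theorem accum (hn : 2 ≤ n) (hc : ‖c‖ ≤ 2) {x : ℂ} (hx : x ∈ closure (esc n c)) (hx' : x ∉ esc n c)
    {b : ℂ} (hb : b ≠ c) (J : ℕ) {δ : ℝ} (hδ : 0 < δ) :
    ∃ y ∈ ball x δ, ∃ j, J ≤ j ∧ (f n c)^[j] y = b := by
  by_contra hcon
  push Not at hcon
  obtain ⟨a1, a2, ha, h1, h2⟩ := two_roots hn (sub_ne_zero.mpr hb)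
  obtain ⟨R', hR'0, hR'⟩ := schottky2 ha 2
  have key : ∀ j : ℕ, J ≤ j → ∀ w ∈ ball x (δ / 2), ‖(f n c)^[j] w‖ ≤ R' := by
    intro j hj
    apply hR' _ x δ hδ (diff_iter j).differentiableOn
    · intro w hw h3
      apply hcon w hw (j + 1) (by omega)
      rw [Function.iterate_succ_apply', h3]
      unfold f
      rw [h1]
      ring
    · intro w hw h3
      apply hcon w hw (j + 1) (by omega)
      rw [Function.iterate_succ_apply', h3]
      unfold f
      rw [h2]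
      ring
    · exact le_two_of_not_esc hn hc hx' j
  obtain ⟨w, hw, hw2⟩ := Metric.mem_closure_iff.mp hx (δ / 2) (by positivity)
  have hw3 : w ∈ ball x (δ / 2) := by rwa [mem_ball, dist_comm]
  refine not_esc_of_bdd (R := R') (fun k => ?_) (iter_of_esc J hw)
  rw [← Function.iterate_add_apply]
  exact key (k + J) (by omega) w hw3

/-- Orbits near the critical value do not separate quickly. -/
theorem sep (hn : 2 ≤ n) : ∃ C : ℝ, 0 < C ∧ ∀ c ∈ multibrotSet n, c ∉ closure (hyp n) →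
    ∀ᶠ N : ℕ in atTop, ∀ z : ℂ, ‖z - c‖ ≤ L C N → ‖(f n c)^[N] z - (f n c)^[N] c‖ ≤ √‖z - c‖ := by
  obtain ⟨C, ε, hC, -, -, -, h3⟩ := Results.MP_af9036_an.QuasiPolynomialGrowth.result n hn
  refine ⟨C, hC, fun c hc hcl => ?_⟩
  by_contra hcon
  apply hcl
  apply h3 c hc
  rw [not_eventually] at hcon
  refine hcon.mono fun N hN => Or.inr ?_
  push Not at hN
  exact hN

/-- There are no close returns. -/
theorem ret (hn : 2 ≤ n) : ∃ C : ℝ, 0 < C ∧ ∀ c ∈ multibrotSet n, c ∉ closure (hyp n) →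
    ∀ᶠ N : ℕ in atTop, ∀ z : ℂ, L C N < max ‖z - c‖ ‖(f n c)^[N] z - z‖ := by
  obtain ⟨C, ε, hC, -, -, h3⟩ := Results.MP_af9036_an.ClosingLemma.result n hn
  refine ⟨C, hC, fun c hc hcl => ?_⟩
  by_contra hcon
  apply hcl
  apply h3 c hc
  rw [not_eventually] at hcon
  refine hcon.mono fun N hN => ?_
  push Not at hN
  exact hN

lemma sqrt_L (C : ℝ) (k : ℕ) : √(L C k) = L (C / 2) k := by
  have h : L C k = L (C / 2) k ^ 2 := by
    unfold L
    rw [← Real.exp_nat_mul]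
    congr 1
    push_cast
    ring
  rw [h, Real.sqrt_sq (L_pos _ _).le]

lemma L_le_succ {C : ℝ} (hC : 0 ≤ C) {j : ℕ} (hj : 2 ≤ j) : L (4 * C) j ≤ L C (j + 1) := by
  unfold L
  apply Real.exp_le_exp.mpr
  have hj' : (2 : ℝ) ≤ j := by exact_mod_cast hj
  have h1 : Real.log ((j + 1 : ℕ) : ℝ) ≤ 2 * Real.log j := by
    rw [← Real.log_rpow (by linarith)]
    apply Real.log_le_log (by positivity)
    norm_cast
    nlinarith
  have h0 : 0 ≤ Real.log ((j + 1 : ℕ) : ℝ) := Real.log_nonneg (by push_cast; linarith)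
  have h2 : Real.log ((j + 1 : ℕ) : ℝ) ^ 2 ≤ (2 * Real.log j) ^ 2 := by gcongr
  nlinarith

/-- A point `b` which is `0` or is not approached too fast by the critical orbit. -/
def Safe (n : ℕ) (c : ℂ) (A : ℝ) (b : ℂ) : Prop :=
  b = 0 ∨ ∀ᶠ j : ℕ in atTop, L A j ≤ ‖(f n c)^[j] c - b‖

/-- The preimages of a safe point do not come close to the critical value. -/
theorem low (hn : 2 ≤ n) (A : ℝ) : ∃ C : ℝ, 0 < C ∧ ∀ c ∈ multibrotSet n, c ∉ closure (hyp n) →
    ∀ b : ℂ, Safe n c A b → ∀ᶠ j : ℕ in atTop, ∀ y : ℂ, (f n c)^[j] y = b → L C j ≤ ‖y - c‖ := by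
  obtain ⟨C1, hC1, h1⟩ := sep hn
  obtain ⟨C2, hC2, h2⟩ := ret hn
  refine ⟨C1 + 4 * C2 + 2 * |A| + 1, by positivity, ?_⟩
  intro c hc hcl b hb
  have hA := abs_nonneg A
  have e2 : ∀ᶠ j : ℕ in atTop, ∀ z : ℂ, L C2 (j + 1) < max ‖z - c‖ ‖(f n c)^[j + 1] z - z‖ :=
    (tendsto_add_atTop_nat 1).eventually (h2 c hc hcl)
  rcases hb with hb | hb
  · subst hb
    filter_upwards [h1 c hc hcl, e2, eventually_ge_atTop 2] with j hj1 hj2 hj3 y hy
    by_contra hcon
    push Not at hcon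
    have h3 : ‖y - c‖ ≤ L C1 j := hcon.le.trans (L_mono (by linarith) j)
    have h4 := hj1 y h3
    rw [hy, zero_sub, norm_neg] at h4
    have h5 := hj2 c
    rw [sub_self, norm_zero, max_eq_right (norm_nonneg _), Function.iterate_succ_apply'] at h5
    have h6 : f n c ((f n c)^[j] c) - c = ((f n c)^[j] c) ^ n := by
      unfold f
      ring
    rw [h6, norm_pow] at h5
    have h7 : ‖y - c‖ ≤ 1 := by
      refine hcon.le.trans ?_
      unfold L
      rw [Real.exp_le_one_iff]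
      have : 0 ≤ (C1 + 4 * C2 + 2 * |A| + 1) * Real.log j ^ 2 := by positivity
      linarith
    have h8 : √‖y - c‖ ≤ 1 := Real.sqrt_le_one.mpr h7
    have h9 : ‖(f n c)^[j] c‖ ^ n ≤ ‖y - c‖ := by
      calc ‖(f n c)^[j] c‖ ^ n ≤ (√‖y - c‖) ^ n := by gcongr
        _ ≤ (√‖y - c‖) ^ 2 := pow_le_pow_of_le_one (Real.sqrt_nonneg _) h8 hn
        _ = ‖y - c‖ := Real.sq_sqrt (norm_nonneg _)
    have h10 : L (C1 + 4 * C2 + 2 * |A| + 1) j ≤ L (4 * C2) j := L_mono (by linarith) j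
    have h11 := L_le_succ hC2.le hj3
    linarith
  · filter_upwards [h1 c hc hcl, hb] with j hj1 hj2 y hy
    by_contra hcon
    push Not at hcon
    have h3 : ‖y - c‖ ≤ L C1 j := hcon.le.trans (L_mono (by linarith) j)
    have h4 := hj1 y h3
    rw [hy, norm_sub_rev] at h4
    have h5 : √‖y - c‖ < L ((C1 + 4 * C2 + 2 * |A| + 1) / 2) j := by
      rw [← sqrt_L]
      exact Real.sqrt_lt_sqrt (norm_nonneg _) hcon
    have h6 : L ((C1 + 4 * C2 + 2 * |A| + 1) / 2) j ≤ L A j := by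
      apply L_mono
      have := le_abs_self A
      linarith
    linarith

/-- The periodic points do not come close to the critical value. -/
theorem low_per (hn : 2 ≤ n) : ∃ C : ℝ, 0 < C ∧ ∀ c ∈ multibrotSet n, c ∉ closure (hyp n) →
    ∀ᶠ j : ℕ in atTop, ∀ y : ℂ, (f n c)^[j] y = y → L C j ≤ ‖y - c‖ := by
  obtain ⟨C2, hC2, h2⟩ := ret hn
  refine ⟨C2, hC2, fun c hc hcl => ?_⟩
  filter_upwards [h2 c hc hcl] with j hj y hy
  have := hj y
  rw [hy, sub_self, norm_zero, max_eq_left (norm_nonneg _)] at this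
  exact this.le

end Pool.Agent.H57.Queer
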